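import Mathlib
import Pool.Agent.V11299.OV.Main
import Pool.Agent.H705R2.Quad2
import Pool.Agent.TH654.FC.Trace

/-! # Overlaps of jointly invariant measures with affine images, uniformly in the function -/

set_option autoImplicit false

open MeasureTheory Filter Topology Set

namespace Pool.Agent.V11299.TR

open Pool.Agent.H705R2 Pool.Agent.V11299.OV

/-- the condition on `θ`: infinite order, or large orbits -/
def Big (M : ℕ) (θ : UnitAddCircle) : Prop :=
  ¬ IsOfFinAddOrder θ ∨ ∀ j : ℕ, (M : ℕ∞) ≤ {y | ∃ m : ℕ, y = (2 ^ m * 3 ^ j) • θ}.encard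

lemma Big.mono {M N : ℕ} (h : M ≤ N) {θ : UnitAddCircle} (hθ : Big N θ) : Big M θ := by
  rcases hθ with hθ | hθ
  · exact Or.inl hθ
  · exact Or.inr fun j => le_trans (by exact_mod_cast h) (hθ j)

lemma Big.range {M : ℕ} {θ : UnitAddCircle} (hθ : Big M θ) (j : ℕ) :
    (M : ℕ∞) ≤ (range fun m : ℕ => 2 ^ m • 3 ^ j • θ).encard := by
  rcases hθ with hθ | hθ
  · have hinf := Pool.Agent.W765.Det.orbit_infinite (le_refl 2)
      (Pool.Agent.W765.Det.not_torsion_smul hθ (n := 3 ^ j) (by positivity))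
    rw [hinf.encard_eq]
    exact le_top
  · convert hθ j using 2
    ext y
    simp only [mem_range, mem_ofPred_eq, mul_smul]
    exact ⟨fun ⟨m, hm⟩ => ⟨m, hm.symm⟩, fun ⟨m, hm⟩ => ⟨m, hm.symm⟩⟩

lemma joint_main {a : ℤ} (ha : a ≠ 0) (f : C(UnitAddCircle, ℝ)) (hf : ∀ x, 0 ≤ f x) {ε : ℝ}
    (hε : 0 < ε) : ∃ M : ℕ, ∀ θ : UnitAddCircle, Big M θ →
      ∀ μ ν σ : Measure UnitAddCircle, IsProbabilityMeasure μ → IsProbabilityMeasure ν →
      MeasurePreserving (fun x : UnitAddCircle => 2 • x) μ μ →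
      MeasurePreserving (fun x : UnitAddCircle => 3 • x) μ μ →
      MeasurePreserving (fun x : UnitAddCircle => 2 • x) ν ν →
      σ ≤ μ → σ.map (fun x => a • x + θ) ≤ ν →
        σ.real univ * (∫ x, f x) - ε ≤ ∫ x, f x ∂μ := by
  classical
  have hind := mulIndep_of_irrational (le_refl 2) (by norm_num : 2 ≤ 3)
    Pool.Agent.TH654.FC.irr23
  obtain ⟨M, hM⟩ := OV.main (le_refl 2) (by norm_num : 2 ≤ 3) hind ha 1 f hf hε
    (show (0 : ℝ) < 1 / 2 by norm_num)
  refine ⟨M, fun θ hθ μ ν σ hμ hν hμ2 hμ3 hν2 h1 h2 => ?_⟩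
  have hcont : Continuous fun x : UnitAddCircle => (x, a • x + θ) :=
    continuous_id.prodMk ((continuous_zsmul a).add continuous_const)
  have hmeas := hcont.measurable
  set ρ : Measure (UnitAddCircle × UnitAddCircle) := σ.map fun x => (x, a • x + θ) with hρ
  have hfst : ρ.map Prod.fst = σ := by
    rw [hρ, Measure.map_map measurable_fst hmeas]
    exact Measure.map_id
  have hsnd : ρ.map Prod.snd = σ.map fun x => a • x + θ := by
    rw [hρ, Measure.map_map measurable_snd hmeas]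
    rfl
  have hae : ∀ᵐ z ∂ρ, (1 : ℤ) • z.2 - a • z.1 = θ := by
    rw [hρ, ae_map_iff hmeas.aemeasurable (isClosed_eq (by fun_prop) continuous_const).measurableSet]
    refine Eventually.of_forall fun x => ?_
    simp
  have hreal : ρ.real univ = σ.real univ := by
    rw [hρ, map_measureReal_apply hmeas MeasurableSet.univ, preimage_univ]
  have h3 := hM θ (fun j => hθ.range j) μ ν hμ hν hμ2 hν2 ρ (by rw [hfst]; exact h1)
    (by rw [hsnd]; exact h2) hae 0 (M + 1) (by omega)
  rw [hreal] at h3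
  by_contra hcon
  push Not at hcon
  have hall : (Finset.range (M + 1)).filter (fun i => ∫ x, f (3 ^ (0 + i) • x) ∂μ <
      σ.real univ * (∫ x, f x) - ε) = Finset.range (M + 1) := by
    refine Finset.filter_true_of_mem fun i _ => ?_
    have h4 : ∫ x, f (3 ^ (0 + i) • x) ∂μ = ∫ x, f x ∂μ := by
      have h5 : ∫ x, f x ∂(μ.map fun x : UnitAddCircle => 3 ^ (0 + i) • x) =
          ∫ x, f (3 ^ (0 + i) • x) ∂μ :=
        integral_map (continuous_nsmul _).measurable.aemeasurable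
          f.continuous.aestronglyMeasurable
      rw [← h5, map_pow_inv hμ3]
    rw [h4]
    exact hcon
  rw [hall, Finset.card_range] at h3
  push_cast at h3
  have : (0 : ℝ) ≤ M := Nat.cast_nonneg _
  linarith

/-- the same for a compact family of functions -/
lemma joint_compact {a : ℤ} (ha : a ≠ 0) {𝓕 : Set C(UnitAddCircle, ℝ)} (h𝓕 : IsCompact 𝓕)
    (hf : ∀ f ∈ 𝓕, ∀ x, 0 ≤ f x) {ε : ℝ} (hε : 0 < ε) : ∃ M : ℕ, ∀ θ : UnitAddCircle, Big M θ →
      ∀ μ ν σ : Measure UnitAddCircle, IsProbabilityMeasure μ → IsProbabilityMeasure ν →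
      MeasurePreserving (fun x : UnitAddCircle => 2 • x) μ μ →
      MeasurePreserving (fun x : UnitAddCircle => 3 • x) μ μ →
      MeasurePreserving (fun x : UnitAddCircle => 2 • x) ν ν →
      σ ≤ μ → σ.map (fun x => a • x + θ) ≤ ν → ∀ f ∈ 𝓕,
        σ.real univ * (∫ x, f x) - ε ≤ ∫ x, f x ∂μ := by
  classical
  choose! M hM using fun (f : C(UnitAddCircle, ℝ)) (hff : f ∈ 𝓕) =>
    joint_main ha f (hf f hff) (show 0 < ε / 3 by linarith)
  obtain ⟨S, hS𝓕, hSf, hS⟩ := h𝓕.finite_cover_balls (show 0 < ε / 3 by linarith)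
  refine ⟨hSf.toFinset.sup M, fun θ hθ μ ν σ hμ hν hμ2 hμ3 hν2 h1 h2 f hff => ?_⟩
  obtain ⟨g, hg, hfg⟩ := mem_iUnion₂.1 (hS hff)
  have hgF := hS𝓕 hg
  have h3 := hM g hgF θ (hθ.mono (Finset.le_sup (hSf.mem_toFinset.2 hg))) μ ν σ hμ hν hμ2 hμ3 hν2
    h1 h2
  have hdist : ∀ x, |f x - g x| ≤ ε / 3 := by
    intro x
    rw [← Real.dist_eq]
    exact (ContinuousMap.dist_apply_le_dist x).trans (le_of_lt hfg)
  have hint : ∀ (κ : Measure UnitAddCircle) (_ : IsProbabilityMeasure κ),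
      |∫ x, f x ∂κ - ∫ x, g x ∂κ| ≤ ε / 3 := by
    intro κ hκ
    have hi : ∀ h : C(UnitAddCircle, ℝ), Integrable (fun x => h x) κ := fun h =>
      h.continuous.integrable_of_hasCompactSupport (HasCompactSupport.of_compactSpace _)
    rw [← integral_sub (hi f) (hi g)]
    have := norm_integral_le_of_norm_le_const (μ := κ) (f := fun x => f x - g x) (C := ε / 3)
      (Eventually.of_forall fun x => by rw [Real.norm_eq_abs]; exact hdist x)
    rw [Real.norm_eq_abs] at this
    simpa using this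
  have h4 := abs_le.1 (hint μ hμ)
  have h5 := abs_le.1 (hint volume inferInstance)
  have hσ : σ.real univ ≤ 1 := by
    have h6 : σ univ ≤ 1 := (h1 univ).trans (by rw [measure_univ])
    have h7 : σ.real univ = (σ univ).toReal := rfl
    rw [h7]
    exact ENNReal.toReal_le_of_le_ofReal zero_le_one (by simpa using h6)
  have hσ0 : 0 ≤ σ.real univ := measureReal_nonneg
  have h8 : σ.real univ * (∫ x, f x) ≤ σ.real univ * (∫ x, g x) + ε / 3 := by
    nlinarith [h5.1, h5.2]
  linarith [h4.1, h4.2]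

end Pool.Agent.V11299.TR
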