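import Mathlib
import Pool.Agent.W763.Tr.Herg
import Pool.Agent.W764.FB.Ext

/-! # Positive definite functions on the integers and measures -/

set_option autoImplicit false

open MeasureTheory Filter Topology Finset
open scoped ENNReal NNReal ComplexOrder

namespace Pool.Agent.V11299.TR

open Pool.Agent.W764.FB Pool.Agent.W763.Tr

/-- all Toeplitz matrices of `c` are positive semidefinite -/
def PosDef (c : ℤ → ℂ) : Prop :=
  ∀ N : ℕ, ∀ a : ℕ → ℂ, 0 ≤ ∑ j ∈ range N, ∑ k ∈ range N, star (a k) * a j * c (j - k)

lemma PosDef.zero_nonneg {c : ℤ → ℂ} (h : PosDef c) : 0 ≤ c 0 := by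
  have := h 1 (fun _ => 1)
  simpa using this

lemma PosDef.eq_zero {c : ℤ → ℂ} (h : PosDef c) (h0 : c 0 = 0) (n : ℤ) : c n = 0 := by
  have key : ∀ (n : ℕ), 0 < n → ∀ z : ℂ, 0 ≤ z * c n + star z * c (-(n : ℤ)) := by
    intro n hn z
    have h1 := h (n + 1) (fun j => if j = 0 then 1 else if j = n then z else 0)
    have h2 : ∑ j ∈ range (n + 1), ∑ k ∈ range (n + 1),
        star ((fun j => if j = 0 then (1 : ℂ) else if j = n then z else 0) k) *
          (fun j => if j = 0 then (1 : ℂ) else if j = n then z else 0) j * c ((j : ℤ) - (k : ℤ)) =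
        z * c n + star z * c (-(n : ℤ)) := by
      have h3 : ∀ F : ℕ → ℂ, (∀ j, j ≠ 0 → j ≠ n → F j = 0) →
          ∑ j ∈ range (n + 1), F j = F 0 + F n := by
        intro F hF
        rw [← Finset.sum_subset (s₁ := {0, n}) (by
          intro x hx
          simp only [Finset.mem_insert, Finset.mem_singleton] at hx
          rw [Finset.mem_range]
          omega)]
        · rw [Finset.sum_pair (by omega)]
        · intro x _ hx
          simp only [Finset.mem_insert, Finset.mem_singleton, not_or] at hx
          exact hF x hx.1 hx.2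
      rw [h3]
      · rw [h3, h3]
        · simp [hn.ne', h0]
          ring
        · intro j hj0 hjn
          simp [hj0, hjn]
        · intro j hj0 hjn
          simp [hj0, hjn]
      · intro j hj0 hjn
        refine Finset.sum_eq_zero fun k _ => ?_
        simp [hj0, hjn]
    rw [h2] at h1
    exact h1
  have hnat : ∀ n : ℕ, 0 < n → c n = 0 ∧ c (-(n : ℤ)) = 0 := by
    intro n hn
    have h1 := key n hn 1
    have h2 := key n hn (-1)
    have h3 := key n hn Complex.I
    have h4 := key n hn (-Complex.I)
    have e1 : c n + c (-(n : ℤ)) = 0 := by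
      have h5 : 0 ≤ c n + c (-(n : ℤ)) := by simpa using h1
      have h6 : 0 ≤ -(c n + c (-(n : ℤ))) := by
        have : -(c n + c (-(n : ℤ))) = -1 * c n + star (-1 : ℂ) * c (-(n : ℤ)) := by
          simp; ring
        rw [this]
        exact h2
      exact le_antisymm (neg_nonneg.1 h6) h5
    have e2 : Complex.I * (c n - c (-(n : ℤ))) = 0 := by
      have h5 : 0 ≤ Complex.I * (c n - c (-(n : ℤ))) := by
        have : Complex.I * (c n - c (-(n : ℤ))) =
            Complex.I * c n + star Complex.I * c (-(n : ℤ)) := by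
          simp; ring
        rw [this]
        exact h3
      have h6 : 0 ≤ -(Complex.I * (c n - c (-(n : ℤ)))) := by
        have : -(Complex.I * (c n - c (-(n : ℤ)))) =
            -Complex.I * c n + star (-Complex.I) * c (-(n : ℤ)) := by
          simp; ring
        rw [this]
        exact h4
      exact le_antisymm (neg_nonneg.1 h6) h5
    have e3 : c n - c (-(n : ℤ)) = 0 := by
      rcases mul_eq_zero.1 e2 with h | h
      · exact absurd h Complex.I_ne_zero
      · exact h
    have e4 : c n = c (-(n : ℤ)) := sub_eq_zero.1 e3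
    rw [← e4] at e1
    have e5 : c n = 0 := by
      have : (2 : ℂ) * c n = 0 := by rw [two_mul]; exact e1
      rcases mul_eq_zero.1 this with h | h
      · norm_num at h
      · exact h
    exact ⟨e5, by rw [← e4]; exact e5⟩
  rcases lt_trichotomy n 0 with hn | hn | hn
  · obtain ⟨m, rfl⟩ := Int.eq_ofNat_of_zero_le (show 0 ≤ -n by omega) |>.imp fun m hm => by
      have : n = -(m : ℤ) := by omega
      exact this
    exact (hnat m (by omega)).2
  · rw [hn, h0]
  · obtain ⟨m, rfl⟩ := Int.eq_ofNat_of_zero_le hn.le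
    exact (hnat m (by exact_mod_cast hn)).1

/-- Herglotz' theorem for finite measures -/
lemma herg {c : ℤ → ℂ} (h : PosDef c) : ∃ σ : Measure T, IsFiniteMeasure σ ∧
    ∀ n : ℤ, ∫ x, fourier n x ∂σ = c n := by
  have h0 := h.zero_nonneg
  obtain ⟨hre, him⟩ := Complex.nonneg_iff.1 h0
  have hc0 : c 0 = ((c 0).re : ℂ) := Complex.ext rfl (by simp [← him])
  rcases hre.eq_or_lt with hz | hpos
  · refine ⟨0, inferInstance, fun n => ?_⟩
    rw [h.eq_zero (by rw [hc0, ← hz]; simp) n]
    simp
  · set r : ℝ := (c 0).re with hr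
    have hrc : (r : ℂ) ≠ 0 := by exact_mod_cast hpos.ne'
    obtain ⟨μ, hμ, hval⟩ := herglotz (c := fun n => (r : ℂ)⁻¹ * c n) (by
      rw [hc0]
      exact inv_mul_cancel₀ hrc) (by
      intro N a
      have h1 := h N a
      have h2 : ∑ j ∈ range N, ∑ k ∈ range N, star (a k) * a j * ((r : ℂ)⁻¹ * c (j - k)) =
          (r : ℂ)⁻¹ * ∑ j ∈ range N, ∑ k ∈ range N, star (a k) * a j * c (j - k) := by
        rw [Finset.mul_sum]
        refine Finset.sum_congr rfl fun j _ => ?_
        rw [Finset.mul_sum]
        refine Finset.sum_congr rfl fun k _ => ?_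
        ring
      rw [h2]
      refine mul_nonneg ?_ h1
      rw [← Complex.ofReal_inv]
      exact_mod_cast (inv_pos.2 hpos).le)
    refine ⟨ENNReal.ofReal r • μ, Measure.smul_finite μ ENNReal.ofReal_ne_top, fun n => ?_⟩
    rw [integral_smul_measure, hval, ENNReal.toReal_ofReal hpos.le, Complex.real_smul,
      ← mul_assoc, mul_inv_cancel₀ hrc, one_mul]

/-- domination of measures from positive definiteness of the difference -/
lemma le_of_posDef {μ σ : Measure T} [IsFiniteMeasure μ] [IsFiniteMeasure σ]
    (h : PosDef fun n => ∫ x, fourier n x ∂μ - ∫ x, fourier n x ∂σ) : σ ≤ μ := by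
  obtain ⟨κ, hκ, hval⟩ := herg h
  have : μ = σ + κ := by
    refine ext_fourier fun n => ?_
    rw [integral_add_measure (integrable_cont σ (fourier n)) (integrable_cont κ (fourier n)), hval]
    ring
  rw [this]
  exact Measure.le_add_right le_rfl

end Pool.Agent.V11299.TR
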