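import Mathlib
import Pool.Agent.V11299.TR.Pos
import Pool.Agent.V11299.TR.Over
import Pool.Agent.V1194.TR.Bad

/-! # Toeplitz matrices of traces -/

set_option autoImplicit false

open MeasureTheory Filter Topology Finset
open scoped ENNReal NNReal ComplexOrder

namespace Pool.Agent.V11299.TR

open Pool.Agent.W764.FB

/-- `|∑ z_j e(jx)|²` -/
noncomputable def sq {K : ℕ} (z : Fin K → ℂ) : C(UnitAddCircle, ℝ) :=
  ⟨fun x => ‖∑ j : Fin K, z j * fourier ((j : ℕ) : ℤ) x‖ ^ 2, by fun_prop⟩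

lemma continuous_sq {K : ℕ} : Continuous (sq (K := K)) := by
  refine ContinuousMap.continuous_of_continuous_uncurry _ ?_
  have : (Function.uncurry fun (z : Fin K → ℂ) (x : UnitAddCircle) => sq z x) =
      fun p : (Fin K → ℂ) × UnitAddCircle =>
        ‖∑ j : Fin K, p.1 j * fourier ((j : ℕ) : ℤ) p.2‖ ^ 2 := by
    funext p
    rfl
  rw [this]
  fun_prop

lemma int_sq {K : ℕ} (z : Fin K → ℂ) (μ : Measure UnitAddCircle) [IsFiniteMeasure μ] :
    ((∫ x, sq z x ∂μ : ℝ) : ℂ) = ∑ j : Fin K, ∑ k : Fin K,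
      star (z k) * z j * ∫ x, fourier (((j : ℕ) : ℤ) - ((k : ℕ) : ℤ)) x ∂μ := by
  refine (integral_ofReal (𝕜 := ℂ) (f := fun x => sq z x)).symm.trans ?_
  have h1 : ∀ x : UnitAddCircle, ((sq z x : ℝ) : ℂ) = ∑ j : Fin K, ∑ k : Fin K,
      star (z k) * z j * fourier (((j : ℕ) : ℤ) - ((k : ℕ) : ℤ)) x := by
    intro x
    have h2 : ((sq z x : ℝ) : ℂ) = (∑ j : Fin K, z j * fourier ((j : ℕ) : ℤ) x) *
        star (∑ j : Fin K, z j * fourier ((j : ℕ) : ℤ) x) := by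
      have h3 : (sq z x : ℝ) = ‖∑ j : Fin K, z j * fourier ((j : ℕ) : ℤ) x‖ ^ 2 := rfl
      rw [h3, ← Complex.normSq_eq_norm_sq, ← Complex.mul_conj]
      rfl
    rw [h2, star_sum, Finset.sum_mul_sum]
    refine Finset.sum_congr rfl fun j _ => Finset.sum_congr rfl fun k _ => ?_
    have h4 : (fourier (((j : ℕ) : ℤ) - ((k : ℕ) : ℤ)) x : ℂ) =
        fourier ((j : ℕ) : ℤ) x * star (fourier ((k : ℕ) : ℤ) x : ℂ) := by
      have h5 : star (fourier ((k : ℕ) : ℤ) x : ℂ) = fourier (-((k : ℕ) : ℤ)) x := by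
        rw [fourier_neg]; rfl
      rw [h5, sub_eq_add_neg, fourier_add]
    rw [h4, star_mul']
    ring
  have h6 : ∀ x : UnitAddCircle, (RCLike.ofReal (sq z x) : ℂ) = ∑ j : Fin K, ∑ k : Fin K,
      star (z k) * z j * fourier (((j : ℕ) : ℤ) - ((k : ℕ) : ℤ)) x := h1
  simp only [h6]
  rw [integral_finsetSum _ (fun j _ => integrable_finsetSum _ fun k _ =>
    (integrable_cont μ (fourier _)).const_mul _)]
  refine Finset.sum_congr rfl fun j _ => ?_
  rw [integral_finsetSum _ (fun k _ => (integrable_cont μ (fourier _)).const_mul _)]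
  refine Finset.sum_congr rfl fun k _ => ?_
  exact integral_const_mul _ _

lemma int_sq_vol {K : ℕ} (z : Fin K → ℂ) :
    ∫ x, sq z x = ∑ j : Fin K, ‖z j‖ ^ 2 := by
  have h := int_sq z (volume : Measure UnitAddCircle)
  have h1 : ∑ j : Fin K, ∑ k : Fin K, star (z k) * z j *
      ∫ x : UnitAddCircle, (fourier (((j : ℕ) : ℤ) - ((k : ℕ) : ℤ)) x : ℂ) =
      ((∑ j : Fin K, ‖z j‖ ^ 2 : ℝ) : ℂ) := by
    push_cast
    refine Finset.sum_congr rfl fun j _ => ?_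
    rw [Finset.sum_eq_single j]
    · rw [sub_self]
      have h8 : ∫ x : UnitAddCircle, (fourier 0 x : ℂ) = 1 := by simp
      rw [h8, mul_one]
      exact Complex.conj_mul' (z j)
    · intro k _ hk
      have : (((j : ℕ) : ℤ) - ((k : ℕ) : ℤ)) ≠ 0 := by
        intro h0
        apply hk
        apply Fin.ext
        omega
      rw [Pool.Agent.H769R3.integral_fourier_volume this, mul_zero]
    · intro h; exact absurd (Finset.mem_univ j) h
  rw [h1] at h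
  exact_mod_cast h

lemma sq_smul {K : ℕ} (t : ℝ) (z : Fin K → ℂ) (μ : Measure UnitAddCircle) :
    ∫ x, sq (fun j => (t : ℂ) * z j) x ∂μ = t ^ 2 * ∫ x, sq z x ∂μ := by
  rw [← integral_const_mul]
  congr 1
  funext x
  have h1 : (sq (fun j => (t : ℂ) * z j) x : ℝ) =
      ‖∑ j : Fin K, ((t : ℂ) * z j) * fourier ((j : ℕ) : ℤ) x‖ ^ 2 := rfl
  have h2 : (sq z x : ℝ) = ‖∑ j : Fin K, z j * fourier ((j : ℕ) : ℤ) x‖ ^ 2 := rfl
  rw [h1, h2]
  have h3 : ∑ j : Fin K, ((t : ℂ) * z j) * fourier ((j : ℕ) : ℤ) x =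
      (t : ℂ) * ∑ j : Fin K, z j * fourier ((j : ℕ) : ℤ) x := by
    rw [Finset.mul_sum]
    exact Finset.sum_congr rfl fun j _ => by ring
  rw [h3, norm_mul, mul_pow, Complex.norm_real, Real.norm_eq_abs, sq_abs]

/-- uniform lower bound for the Toeplitz forms -/
lemma toep {a : ℤ} (ha : a ≠ 0) (K : ℕ) {ε : ℝ} (hε : 0 < ε) : ∃ M : ℕ, ∀ θ : UnitAddCircle,
      Big M θ →
      ∀ μ ν σ : Measure UnitAddCircle, IsProbabilityMeasure μ → IsProbabilityMeasure ν →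
      MeasurePreserving (fun x : UnitAddCircle => 2 • x) μ μ →
      MeasurePreserving (fun x : UnitAddCircle => 3 • x) μ μ →
      MeasurePreserving (fun x : UnitAddCircle => 2 • x) ν ν →
      σ ≤ μ → σ.map (fun x => a • x + θ) ≤ ν → ∀ z : ℕ → ℂ,
        (σ.real Set.univ - ε) * ∑ j ∈ range K, ‖z j‖ ^ 2 ≤
          (∑ j ∈ range K, ∑ k ∈ range K,
            star (z k) * z j * ∫ x, fourier ((j : ℤ) - (k : ℤ)) x ∂μ).re := by
  have hcpt : IsCompact (sq (K := K) '' {z | ∑ j : Fin K, ‖z j‖ ^ 2 = 1}) := by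
    refine IsCompact.image ?_ continuous_sq
    refine Metric.isCompact_of_isClosed_isBounded (isClosed_eq (by fun_prop) continuous_const) ?_
    refine (Metric.isBounded_closedBall (x := (0 : Fin K → ℂ)) (r := 1)).subset ?_
    intro z hz
    rw [mem_closedBall_zero_iff, pi_norm_le_iff_of_nonneg zero_le_one]
    intro j
    have h1 : ‖z j‖ ^ 2 ≤ 1 := by
      have hz' : ∑ j : Fin K, ‖z j‖ ^ 2 = 1 := hz
      rw [← hz']
      exact Finset.single_le_sum (f := fun j => ‖z j‖ ^ 2) (fun i _ => by positivity)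
        (Finset.mem_univ j)
    have h2 := norm_nonneg (z j)
    nlinarith
  obtain ⟨M, hM⟩ := joint_compact ha hcpt (by
    rintro _ ⟨z, -, rfl⟩ x
    exact sq_nonneg _) hε
  refine ⟨M, fun θ hθ μ ν σ hμ hν hμ2 hμ3 hν2 h1 h2 z => ?_⟩
  set z' : Fin K → ℂ := fun j => z j with hz'
  have hS : ∑ j ∈ range K, ‖z j‖ ^ 2 = ∑ j : Fin K, ‖z' j‖ ^ 2 := Finset.sum_range _
  have hQ : (∑ j ∈ range K, ∑ k ∈ range K,
      star (z k) * z j * ∫ x, fourier ((j : ℤ) - (k : ℤ)) x ∂μ) = ((∫ x, sq z' x ∂μ : ℝ) : ℂ) := by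
    rw [int_sq, Finset.sum_range]
    refine Finset.sum_congr rfl fun j _ => ?_
    rw [Finset.sum_range]
  rw [hS, hQ, Complex.ofReal_re]
  rcases eq_or_lt_of_le (show 0 ≤ ∑ j : Fin K, ‖z' j‖ ^ 2 from
    Finset.sum_nonneg fun _ _ => by positivity) with h0 | hpos
  · rw [← h0, mul_zero]
    exact integral_nonneg fun x => sq_nonneg _
  · set S : ℝ := ∑ j : Fin K, ‖z' j‖ ^ 2 with hSdef
    set t : ℝ := (Real.sqrt S)⁻¹ with ht
    have ht2 : t ^ 2 * S = 1 := by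
      rw [ht, inv_pow, Real.sq_sqrt hpos.le, inv_mul_cancel₀ hpos.ne']
    have hmem : sq (fun j => (t : ℂ) * z' j) ∈ sq (K := K) '' {z | ∑ j : Fin K, ‖z j‖ ^ 2 = 1} := by
      refine ⟨_, ?_, rfl⟩
      show ∑ j : Fin K, ‖(t : ℂ) * z' j‖ ^ 2 = 1
      rw [← ht2, hSdef, Finset.mul_sum]
      refine Finset.sum_congr rfl fun j _ => ?_
      rw [norm_mul, mul_pow, Complex.norm_real, Real.norm_eq_abs, sq_abs]
    have h3 := hM θ hθ μ ν σ hμ hν hμ2 hμ3 hν2 h1 h2 _ hmem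
    rw [sq_smul, sq_smul, int_sq_vol, ← hSdef, ht2, mul_one] at h3
    have h4 : (σ.real Set.univ - ε) * S ≤ (t ^ 2 * ∫ x, sq z' x ∂μ) * S :=
      mul_le_mul_of_nonneg_right h3 hpos.le
    calc (σ.real Set.univ - ε) * S ≤ (t ^ 2 * ∫ x, sq z' x ∂μ) * S := h4
      _ = (t ^ 2 * S) * ∫ x, sq z' x ∂μ := by ring
      _ = ∫ x, sq z' x ∂μ := by rw [ht2, one_mul]

end Pool.Agent.V11299.TR
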